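import Pool.Agent.TH188.ET.Conv

/-! # MP_2429c0_al: elementary type and relations in `K_2(F)/2`

For a field `F` of characteristic `≠ 2` with finitely many square classes the quaternionic
structure of `F` is of elementary type if and only if all relations between symbols in `K_2(F)/2`
come from common slots. -/

set_option autoImplicit false

namespace Pool.Agent.Results.MP_2429c0_al.HigherCommonSlot

open Pool.Agent.H315R3.ETC Pool.Agent.TH188.ET
open Pool.Agent.Results.MP_d26ff6_al.SymbolExtension

theorem result {F : Type*} [Field F] (h2 : (2 : F) ≠ 0) (hfin : FinSq F) :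
    ((∃ S : QData, Elem S ∧ IsStructureOf F S) ↔ RelationsFromSlots F) ∧
    ((∃ S : QData, Elem S ∧ IsStructureOf F S) ↔ SlotsFromNorms F) := by
  obtain ⟨S, hS, hSfin, hSq⟩ := exists_structure h2 hfin
  have hcrit := Pool.Agent.Results.MP_d26ff6_al.SymbolExtension.result S hSq hSfin
  have h12 : (∃ S : QData, Elem S ∧ IsStructureOf F S) → RelationsFromSlots F := by
    rintro ⟨T, hT, hTs⟩
    have hE : Elem S := Elem.iso _ _ hT (iso_of_structure hTs hS)
    obtain ⟨φ, hs, hk, -, h0, hq⟩ := hS
    exact relations_of_extend h2 φ hs hk h0 hq (hcrit.1.mp hE)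
  have h23 : RelationsFromSlots F → SlotsFromNorms F := slots_of_relations
  have h31 : SlotsFromNorms F → ∃ S : QData, Elem S ∧ IsStructureOf F S := by
    intro h
    refine ⟨S, ?_, hS⟩
    obtain ⟨φ, hs, hk, -, h0, hq⟩ := hS
    exact hcrit.2.mpr (extend_of_slots h2 φ hs hk h0 hq hSfin h)
  exact ⟨⟨h12, fun h => h31 (h23 h)⟩, ⟨fun h => h23 (h12 h), h31⟩⟩

end Pool.Agent.Results.MP_2429c0_al.HigherCommonSlot
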