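import Pool.Agent.TH673.VG.FieldInd

/-! # MP_2429c0_al: fields with large core

Let `F` be a field of characteristic `≠ 2` with finitely many square classes, and let `N(a)` be the
group of the nonzero values of `x² - a y²`.  Let `C` be the smallest subgroup of `F*` which contains
all `a` with `N(a)` of index at most two in `F*`, and all `a` with `N(a) C = F*`.  If `C` has index
at most four in `F*`, then the quaternionic structure of `F` is of elementary type. -/

set_option autoImplicit false

namespace Pool.Agent.Results.MP_2429c0_al.NormGroupCore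

open Pool.Agent.H315R3.ETC Pool.Agent.TH188.ET Pool.Agent.TH673.VG

theorem result {F : Type*} [Field F] (h2 : (2 : F) ≠ 0) (hfin : FinSq F) :
    ((fieldCore F).index ≤ 4 → ∃ S : QData, Elem S ∧ IsStructureOf F S) ∧
    (fieldCore F = ⊤ ↔ ∃ S : QData, ProdEx S ∧ IsStructureOf F S) := by
  obtain ⟨S, hS, hSfin, hSq, hi, ht⟩ := field_core h2 hfin
  refine ⟨fun h => ⟨S, elem_of_core hSq (hi ▸ h), hS⟩, fun h => ⟨S, ?_, hS⟩, ?_⟩
  · exact prodEx_of_core hSq hSfin (ht.1 h)
  · rintro ⟨T, hT, hTs⟩
    have hP : ProdEx S := ProdEx.iso T S hT hSq (iso_of_structure hTs hS)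
    exact ht.2 ((core_eq_top S).2 (reach_of_prodEx hP).2)

end Pool.Agent.Results.MP_2429c0_al.NormGroupCore
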