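import Pool.Agent.TH673.VG.FourField

/-! # MP_2429c0_al: norm groups of index at most four outside the core

Let `F` be a field of characteristic `≠ 2` with finitely many square classes, and let `N(a)` be the
group of the nonzero values of `x² - a y²`.  Let `C` be the smallest subgroup of `F*` which contains
all `a` with `N(a)` of index at most two in `F*`, and all `a` with `N(a) C = F*`.  If `N(a)` has
index at most four in `F*` for every `a` outside `C`, then the quaternionic structure of `F` is of
elementary type. -/

set_option autoImplicit false

namespace Pool.Agent.Results.MP_2429c0_al.NormGroupFour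

open Pool.Agent.H315R3.ETC Pool.Agent.TH188.ET Pool.Agent.TH673.VG

theorem result {F : Type*} [Field F] (h2 : (2 : F) ≠ 0) (hfin : FinSq F)
    (h4 : ∀ a : Fˣ, a ∉ fieldCore F → (normGroup a).index ≤ 4) :
    ∃ S : QData, Elem S ∧ IsStructureOf F S :=
  field_four h2 hfin h4

end Pool.Agent.Results.MP_2429c0_al.NormGroupFour
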