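import Pool.Agent.TH188.ET.FieldSmall

/-! # MP_2429c0_al: fields with small `K_2(F)/2`, and fields with norm groups of index at most four

Let `F` be a field of characteristic `≠ 2` with finitely many square classes.  If `K_2(F)/2` has at
most sixteen elements, or if all the groups of values of the forms `x² - a y²` have index at most
four in `F*`, then the quaternionic structure of `F` is of elementary type.  More generally it is
enough that three-generated parts of `K_2(F)/2` are small. -/

set_option autoImplicit false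

namespace Pool.Agent.Results.MP_2429c0_al.SmallK2

open Pool.Agent.H315R3.ETC Pool.Agent.TH188.ET

/-- the group of the nonzero values of the norm form `x² - a y²` -/
def normGroup {F : Type*} [Field F] (a : Fˣ) : Subgroup Fˣ where
  carrier := {c | NormFrom a c}
  one_mem' := NormFrom.one a
  mul_mem' := NormFrom.mul
  inv_mem' := NormFrom.inv

/-- `Q_a = {a, F*}`: the subgroup of `K_2(F)/2` generated by all symbols `{a,b}`, `b ∈ F*` (it
consists of these symbols) -/
def QGroup {F : Type*} [Field F] (a : Fˣ) : AddSubgroup (K2 F) :=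
  AddSubgroup.closure (Set.range (sy a))

/-- the smallness condition at `x, y, z`: all groups `Q_p`, `p = x, y, z, xyz`, have at most four
elements, or one of them has index at most two in `Q_x + Q_y + Q_z` (that is, `u ∈ Q_p` or
`v ∈ Q_p` or `u + v ∈ Q_p` for all `u, v ∈ Q_x + Q_y + Q_z`) -/
def SmallAt {F : Type*} [Field F] (x y z : Fˣ) : Prop :=
  (∀ p : Fˣ, p = x ∨ p = y ∨ p = z ∨ p = x * y * z → Nat.card (QGroup p) ≤ 4) ∨
  ∃ p : Fˣ, (p = x ∨ p = y ∨ p = z ∨ p = x * y * z) ∧
    ∀ u ∈ QGroup x ⊔ QGroup y ⊔ QGroup z, ∀ v ∈ QGroup x ⊔ QGroup y ⊔ QGroup z,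
      u ∈ QGroup p ∨ v ∈ QGroup p ∨ u + v ∈ QGroup p

theorem result {F : Type*} [Field F] (h2 : (2 : F) ≠ 0) (hfin : FinSq F) :
    (Finite (K2 F) → Nat.card (K2 F) ≤ 16 → ∃ S : QData, Elem S ∧ IsStructureOf F S) ∧
    ((∀ a : Fˣ, (normGroup a).index ≤ 4) → ∃ S : QData, Elem S ∧ IsStructureOf F S) ∧
    ((∀ x y z : Fˣ, SmallAt x y z) → ∃ S : QData, Elem S ∧ IsStructureOf F S) := by
  have main : (∀ x y z : Fˣ, SmallAt x y z) → ∃ S : QData, Elem S ∧ IsStructureOf F S :=
    fun h => Pool.Agent.TH188.ETF.elem_of_br h2 hfin fun x y z =>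
      Pool.Agent.TH188.ETF.small_of_K2 h2 hfin x y z (h x y z)
  refine ⟨fun hf hc => main fun x y z => ?_, fun h => ?_, main⟩
  · exact Pool.Agent.TH188.ETV.small_of_card K2_add_self hf hc (sy (F := F)) x y z
  · refine Pool.Agent.TH188.ETF.elem_of_br h2 hfin fun x y z => Or.inl fun p _ => ?_
    obtain ⟨f, hf1, -, hf3⟩ := Pool.Agent.TH188.ETV.card_Qs
      (Pool.Agent.TH188.ETF.bq h2) (Pool.Agent.TH188.ETF.bq_mul h2) p
    rw [← hf3]
    have h1 : f.ker = Subgroup.toAddSubgroup (normGroup p) := by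
      ext b
      rw [AddMonoidHom.mem_ker]
      have : f b = Pool.Agent.TH188.ETF.bq h2 p b.toMul := hf1 b.toMul
      rw [this, Pool.Agent.TH188.ETF.bq_eq_zero_iff]
      exact Iff.rfl
    rw [h1]
    exact h p

end Pool.Agent.Results.MP_2429c0_al.SmallK2
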